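import Mathlib
import Pool.Agent.X21.Surplus
import Pool.Agent.X21.Surplus2

set_option autoImplicit false
open Finset

namespace Pool.Agent.Results.MP_e83726_nt.UnboundedGaps

open Pool.Agent.X21.Surplus

lemma primorial_le (y : ℕ) : primorial y ≤ 2 * P y := by
  unfold primorial P
  have h4 : (Finset.range (y+1)).filter Nat.Prime ⊆ insert 2 (T y) := by
    intro p hp
    rw [Finset.mem_filter, Finset.mem_range] at hp
    rw [Finset.mem_insert, mem_T]
    by_cases h : p = 2
    · left; exact h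
    · right; exact ⟨by omega, hp.2, h⟩
  calc ∏ p ∈ (Finset.range (y+1)).filter Nat.Prime, p ≤ ∏ p ∈ insert 2 (T y), p := by
        apply Finset.prod_le_prod_of_subset_of_one_le' h4
        intro i hi _
        rw [Finset.mem_insert] at hi
        rcases hi with rfl | hi
        · norm_num
        · exact (mem_T.1 hi).2.1.one_le
    _ = 2 * ∏ p ∈ T y, p := by
        rw [Finset.prod_insert (by rw [mem_T]; tauto)]

lemma growth (M : ℝ) (hM : 0 < M) : ∃ y0 : ℕ, ∀ y : ℕ, y0 ≤ y →
    (2 * M * (y:ℝ) ^ (2 * Nat.sqrt (9 * y) + 1)) ^ 2 < P y := by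
  have hlo := isLittleO_log_rpow_atTop (r := 1/2) (by norm_num)
  have hev := hlo.bound (show (0:ℝ) < 1/100 by norm_num)
  rw [Filter.eventually_atTop] at hev
  obtain ⟨x0, hx0⟩ := hev
  obtain ⟨N1, hN1⟩ := exists_nat_gt (max x0 (max 1 ((2 * Real.log (2 * M) + 3) / 0.4)))
  refine ⟨N1, fun y hy => ?_⟩
  have hyr : max x0 (max 1 ((2 * Real.log (2 * M) + 3) / 0.4)) < (y:ℝ) :=
    lt_of_lt_of_le hN1 (by exact_mod_cast hy)
  have hx : x0 ≤ y := le_trans (le_max_left _ _) hyr.le
  have hy1 : (1:ℝ) < y := lt_of_le_of_lt (le_trans (le_max_left _ _) (le_max_right _ _)) hyr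
  have hyM : (2 * Real.log (2 * M) + 3) / 0.4 < y :=
    lt_of_le_of_lt (le_trans (le_max_right _ _) (le_max_right _ _)) hyr
  have hy0 : (0:ℝ) < y := by linarith
  have hL := hx0 y hx
  have hLpos : 0 < Real.log y := Real.log_pos hy1
  rw [Real.norm_of_nonneg hLpos.le, ← Real.sqrt_eq_rpow, Real.norm_of_nonneg (Real.sqrt_nonneg _)] at hL
  set s : ℝ := Real.sqrt y with hs
  have hss : s * s = y := Real.mul_self_sqrt hy0.le
  have hs1 : 1 ≤ s := by
    by_contra hcon
    push Not at hcon
    have hs0 : 0 ≤ s := Real.sqrt_nonneg _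
    nlinarith
  have hsy : s ≤ y := by nlinarith
  -- r ≤ 3 s
  set r := Nat.sqrt (9 * y) with hr
  have hr1 : r * r ≤ 9 * y := Nat.sqrt_le (9 * y)
  have hr2 : (r:ℝ) * r ≤ 9 * y := by exact_mod_cast hr1
  have hr3 : (r:ℝ) ≤ 3 * s := by
    by_contra hcon
    push Not at hcon
    have : 0 ≤ s := by linarith
    nlinarith
  have hPpos : (0:ℝ) < P y := by exact_mod_cast P_pos y
  have hpowpos : (0:ℝ) < 2 * M * (y:ℝ) ^ (2 * r + 1) := by positivity
  rw [← Real.log_lt_log_iff (by positivity) hPpos, Real.log_pow, Real.log_mul (by positivity) (by positivity),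
    Real.log_pow]
  -- lower bound for log P
  have hth := Chebyshev.theta_ge y
  have hth2 : Chebyshev.theta (y:ℝ) = Real.log (primorial y) := by
    rw [Chebyshev.theta_eq_log_primorial, Nat.floor_natCast]
  have h1 : Real.log (primorial y) ≤ Real.log 2 + Real.log (P y) := by
    rw [← Real.log_mul (by norm_num) hPpos.ne']
    apply Real.log_le_log
    · exact_mod_cast primorial_pos y
    · exact_mod_cast primorial_le y
  rw [hth2] at hth
  have hl1 : 0.6931471803 < Real.log 2 := Real.log_two_gt_d9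
  have hl2 : Real.log 2 < 0.6931471808 := Real.log_two_lt_d9
  have h2 : Real.log ((y:ℝ) + 1) ≤ Real.log 2 + Real.log y := by
    rw [← Real.log_mul (by norm_num) hy0.ne']
    apply Real.log_le_log (by linarith)
    linarith
  have h3 : 2 * s * Real.log y ≤ 0.02 * y := by nlinarith
  have h4 : ((2 * r + 1 : ℕ) : ℝ) * Real.log y ≤ (6 * s + 1) * (1/100 * s) := by
    push_cast
    apply mul_le_mul (by linarith) hL hLpos.le (by linarith)
  have h5 : (6 * s + 1) * (1/100 * s) ≤ 0.07 * y := by nlinarith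
  have h6 : (2 * Real.log (2 * M) + 3) < 0.4 * y := by
    rw [div_lt_iff₀ (by norm_num)] at hyM; linarith
  push_cast at h4 ⊢
  nlinarith

/-- `B1` is infinite and the gaps `g(b_{j+1}) - g(b_j)` are unbounded. -/
theorem result : B1.Infinite ∧ ∀ M : ℝ, ∃ j : ℕ, M < g (b (j+1)) - g (b j) := by
  refine ⟨B1_infinite, ?_⟩
  by_contra hcon
  push Not at hcon
  obtain ⟨M, hM⟩ := hcon
  -- records are strictly increasing
  have hgmono : StrictMono (fun j => g (b j)) := by
    apply strictMono_nat_of_lt_succ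
    intro j
    exact (b_mem (j+1)).2.2 (b j) (b_strictMono (Nat.lt_succ_self j)) (b_mem j).1 (b_mem j).2.1
  have hMpos : 0 < M := by
    have h1 := hM 0
    have h2 : g (b 0) < g (b (0+1)) := hgmono (Nat.lt_succ_self 0)
    linarith
  obtain ⟨y1, hy1⟩ := H_P_unbounded 4
  obtain ⟨y2, hy2⟩ := growth M hMpos
  set y := max (max y1 y2) (max 12 (4 * b 0 + 1)) with hy
  have hyy1 : y1 ≤ y := le_trans (le_max_left _ _) (le_max_left _ _)
  have hyy2 : y2 ≤ y := le_trans (le_max_right _ _) (le_max_left _ _)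
  have hy12 : 12 ≤ y := le_trans (le_max_left _ _) (le_max_right _ _)
  have hyb : 4 * b 0 + 1 ≤ y := le_trans (le_max_right _ _) (le_max_right _ _)
  have hH := hy1 y hyy1
  have hgrow := hy2 y hyy2
  set X := P y * y with hX
  have hPpos := P_pos y
  have hyX : y ≤ X := by rw [hX]; exact Nat.le_mul_of_pos_left _ hPpos
  -- first index beyond X/4
  have hex : ∃ t, X < 4 * b t := by
    refine ⟨X + 1, ?_⟩
    have := b_strictMono.le_apply (x := X + 1)
    omega
  set t0 := Nat.find hex with ht0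
  have ht0spec : X < 4 * b t0 := Nat.find_spec hex
  have ht0pos : t0 ≠ 0 := by
    intro h0
    rw [h0] at ht0spec
    omega
  obtain ⟨i, hi⟩ : ∃ i, t0 = i + 1 := ⟨t0 - 1, by omega⟩
  have hbi : 4 * b i ≤ X := by
    have := Nat.find_min hex (m := i) (by omega)
    omega
  -- the multiple k just below X
  have hPX : P y < X := by rw [hX]; nlinarith
  obtain ⟨k, hk1, hk2, hk3, hk4, hk5⟩ := exists_mult (P_odd y) hPX
  have hkn := nonDeficient_mult hH hk1 hk5 hk2
  obtain ⟨m, hm, hmk, hgk⟩ := rec_ge hk1 hkn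
  obtain ⟨j, hj⟩ : ∃ j, b j = m := by
    classical
    refine ⟨Nat.count (fun n => n ∈ B1) m, ?_⟩
    unfold b
    exact Nat.nth_count hm
  -- telescoping
  have htel : ∀ d : ℕ, g (b (i + d)) ≤ g (b i) + M * d := by
    intro d
    induction d with
    | zero => simp
    | succ d ih =>
      have h1 := hM (i + d)
      push_cast
      have : i + (d + 1) = i + d + 1 := by ring
      rw [this]; linarith
  -- bound for number of records
  have hcount : g (b j) ≤ g (b i) + M * (y:ℝ) ^ (2 * Nat.sqrt (9 * y) + 1) := by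
    rcases le_or_gt j i with hji | hji
    · have h1 : g (b j) ≤ g (b i) := hgmono.monotone hji
      have : 0 ≤ M * (y:ℝ) ^ (2 * Nat.sqrt (9 * y) + 1) := by positivity
      linarith
    · obtain ⟨d, hd⟩ : ∃ d, j = i + d := ⟨j - i, by omega⟩
      have h1 := htel d
      rw [← hd] at h1
      have h2 : d ≤ y ^ (2 * Nat.sqrt (9 * y) + 1) := by
        have h3 := count_records (y := y) (by omega) hH ((Finset.Icc (i+1) j).image b) (by
          intro n hn
          obtain ⟨t, ht, rfl⟩ := Finset.mem_image.1 hn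
          rw [Finset.mem_Icc] at ht
          refine ⟨b_mem t, ?_, ?_⟩
          · have h4 : b t ≤ b j := b_strictMono.monotone ht.2
            omega
          · have h4 : b t0 ≤ b t := b_strictMono.monotone (by omega)
            omega)
        rw [Finset.card_image_of_injective _ b_strictMono.injective, Nat.card_Icc] at h3
        omega
      have h3 : (d:ℝ) ≤ (y:ℝ) ^ (2 * Nat.sqrt (9 * y) + 1) := by exact_mod_cast h2
      have : M * d ≤ M * (y:ℝ) ^ (2 * Nat.sqrt (9 * y) + 1) := mul_le_mul_of_nonneg_left h3 hMpos.le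
      linarith
  -- numerical comparison
  have hyr : (12:ℝ) ≤ y := by exact_mod_cast hy12
  have hy0 : (0:ℝ) < y := by linarith
  have hPr : (0:ℝ) < P y := by exact_mod_cast hPpos
  have hXr : (X:ℝ) = P y * y := by rw [hX]; push_cast; ring
  have hX0 : (0:ℝ) < X := by rw [hXr]; positivity
  have hSP : 2 ≤ S (P y) := by unfold S; linarith
  have hHS : H (P y) = S (P y) + 2 := by unfold S; ring
  -- lower bound for g k
  have hlow : S (P y) * (Real.sqrt X * (1 - 2 / y)) ≤ g k := by
    have hSk : S (P y) ≤ S k := by unfold S; linarith [H_mono hk2 hk5.ne']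
    have h1 : Real.sqrt X * (1 - 2 / y) ≤ Real.sqrt k := by
      have h2 : 0 ≤ 1 - 2 / (y:ℝ) := by
        have : 2 / (y:ℝ) ≤ 1 := by rw [div_le_one hy0]; linarith
        linarith
      apply Real.le_sqrt_of_sq_le
      rw [mul_pow, Real.sq_sqrt hX0.le]
      have h3 : (X:ℝ) * (1 - 2/y) ≤ k := by
        have h4 : (X:ℝ) ≤ k + 2 * P y := by exact_mod_cast hk4
        have h5 : (X:ℝ) * (2 / y) = 2 * P y := by rw [hXr]; field_simp
        linarith
      have h6 : (1 - 2/(y:ℝ))^2 ≤ 1 - 2/y := by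
        have h7 : 1 - 2/(y:ℝ) ≤ 1 := by
          have : 0 ≤ 2 / (y:ℝ) := by positivity
          linarith
        nlinarith
      calc (X:ℝ) * (1 - 2/y)^2 ≤ X * (1 - 2/y) := mul_le_mul_of_nonneg_left h6 hX0.le
        _ ≤ k := h3
    unfold g
    have h2 : 0 ≤ 1 - 2 / (y:ℝ) := by
      have : 2 / (y:ℝ) ≤ 1 := by rw [div_le_one hy0]; linarith
      linarith
    apply mul_le_mul hSk h1 (by positivity) (by linarith)
  -- upper bound for g (b i)
  have hup : g (b i) ≤ (S (P y) + H (P y) / y) * (Real.sqrt X / 2) := by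
    have hbiB := b_mem i
    have h1 : b i ≤ P y * y := by omega
    have h2 := H_upper (y := y) (by omega) hbiB.1 h1
    have h3 : S (b i) ≤ S (P y) + H (P y) / y := by
      unfold S
      have : H (P y) * (1 + 1 / (y:ℝ)) = H (P y) + H (P y) / y := by ring
      linarith
    have h4 : Real.sqrt (b i) ≤ Real.sqrt X / 2 := by
      have h5 : Real.sqrt X / 2 = Real.sqrt (X / 4) := by
        rw [Real.sqrt_div hX0.le]
        congr 1
        rw [show (4:ℝ) = 2^2 by norm_num, Real.sqrt_sq (by norm_num)]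
      rw [h5]
      apply Real.sqrt_le_sqrt
      have : (4:ℝ) * b i ≤ X := by exact_mod_cast hbi
      linarith
    unfold g
    apply mul_le_mul h3 h4 (Real.sqrt_nonneg _)
    have := H_pos (P y)
    positivity
  -- combine
  have hcomb : S (P y) * (Real.sqrt X * (1 - 2 / y)) ≤
      (S (P y) + H (P y) / y) * (Real.sqrt X / 2) + M * (y:ℝ) ^ (2 * Nat.sqrt (9 * y) + 1) := by
    calc _ ≤ g k := hlow
      _ ≤ g m := hgk
      _ = g (b j) := by rw [hj]
      _ ≤ _ := hcount
      _ ≤ _ := by linarith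
  have hsX : 0 < Real.sqrt X := Real.sqrt_pos.2 hX0
  have hquarter : Real.sqrt X / 2 ≤ M * (y:ℝ) ^ (2 * Nat.sqrt (9 * y) + 1) := by
    have h1 : 2 / (y:ℝ) ≤ 1/6 := by rw [div_le_iff₀ hy0]; linarith
    have h2 : H (P y) / y ≤ S (P y) / 6 := by
      rw [hHS, div_le_iff₀ hy0]; nlinarith
    have h3 : S (P y) * (Real.sqrt X * (5/6)) ≤ S (P y) * (Real.sqrt X * (1 - 2 / y)) := by
      apply mul_le_mul_of_nonneg_left _ (by linarith)
      apply mul_le_mul_of_nonneg_left _ hsX.le
      linarith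
    have h4 : (S (P y) + H (P y) / y) * (Real.sqrt X / 2) ≤ (S (P y) * (7/6)) * (Real.sqrt X / 2) := by
      apply mul_le_mul_of_nonneg_right _ (by positivity)
      linarith
    have h5 : 2 * Real.sqrt X ≤ S (P y) * Real.sqrt X := mul_le_mul_of_nonneg_right hSP hsX.le
    nlinarith
  have hP2 : Real.sqrt (P y) ≤ Real.sqrt X := by
    apply Real.sqrt_le_sqrt
    rw [hXr]; nlinarith
  have hfin : (P y : ℝ) ≤ (2 * M * (y:ℝ) ^ (2 * Nat.sqrt (9 * y) + 1)) ^ 2 := by
    have h1 : Real.sqrt (P y) ≤ 2 * M * (y:ℝ) ^ (2 * Nat.sqrt (9 * y) + 1) := by linarith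
    calc (P y : ℝ) = (Real.sqrt (P y))^2 := (Real.sq_sqrt hPr.le).symm
      _ ≤ _ := pow_le_pow_left₀ (Real.sqrt_nonneg _) h1 2
  linarith

end Pool.Agent.Results.MP_e83726_nt.UnboundedGaps
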